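import Pool.Agent.H408Z.DP.Main

/-!
# Return probabilities of random walk on dynamical percolation

The annealed return probability is comparable with that of simple random walk on every connected,
locally finite, vertex-transitive graph.

Outline. The chain killed outside a finite set `F` is reversible; let `M` be its symmetrised
generator and `W` the isometry onto the functions that are constant in the environment, so that
the killed return probabilities are the diagonal entries of `Wᵀ exp(tM) W`. Jensen's inequality
gives `Tr Wᵀ exp(tM) W ≥ Tr exp(ptΔ)`. A three-term inequality on each edge and the Efron-Stein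
inequality bound the form of `M` by that of `cΔ` on the range of `W` and by `-μ/2` on its
complement, and convexity gives `Tr Wᵀ exp(tM) W ≤ Tr exp(ctΔ) + |F| exp(-μt/2)`. On an amenable
graph, averaging over Følner sets turns the trace bounds into bounds at one vertex. On a
nonamenable graph Cheeger's inequality makes both probabilities decay exponentially.
-/

namespace Pool.Agent.Results.MP_2a8190_pr.AHeatKernel

open Pool.Agent.H408Z.DP

/-- For every infinite, connected, locally finite, vertex-transitive graph, every vertex `o` and
all `μ, p ∈ (0, 1]` there is `C ≥ 1` with `P_{Ct}(o,o) / C ≤ Q_t(o,o) ≤ C P_{t/C}(o,o)` for all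
`t ≥ 0`. -/
theorem result {V : Type*} [DecidableEq V] [Infinite V] (G : SimpleGraph V) [G.LocallyFinite]
    (hconn : G.Connected) (htrans : ∀ x y : V, ∃ φ : G ≃g G, φ x = y) (o : V) (μ p : ℝ)
    (hμ : μ ∈ Set.Ioc (0 : ℝ) 1) (hp : p ∈ Set.Ioc (0 : ℝ) 1) :
    ∃ C : ℝ, 1 ≤ C ∧ ∀ t : ℝ, 0 ≤ t →
      1 / C * P G o (C * t) ≤ Q G μ p o t ∧ Q G μ p o t ≤ C * P G o (t / C) :=
  compare hμ hp hconn htrans o

end Pool.Agent.Results.MP_2a8190_pr.AHeatKernel
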